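import Pool.Agent.Helper73.AltS.Ind

/-!
# Alternating-sigma multiply perfect numbers with a given number of prime factors

If `n > 1`, `σ̃(n)` divides `n` and `n` has exactly `r` distinct prime factors, then
`n < (3 r) ^ (3 * 4 ^ r / 2)`. So there are infinitely many such `n` if and only if there are such
`n` with arbitrarily many distinct prime factors.

Proof. `n / σ̃(n) = k` is the product of the `(1 + 1/p) / (1 ± 1/p^(a+1))`. Order the `2 r` numbers
`p`, `p^(a+1)` by size. If the first `j` of them are known, then the next one is at most `2 r D`,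
`D` the denominator of the known part, unless the known part is exactly `1`; the latter happens
only if `2` and `3` are the primes whose powers are not known (`(1 + 1/2) (1 + 1/3) = 2`), at most
once, and then the next number is less than `D^2`, because `σ̃(2^a)` and `σ̃(3^b)` are not
composed of known primes.
-/

namespace Pool.Agent.Results.MP_6c9776_nt.OmegaBound

open Pool.Agent.Helper73.AltS

theorem result :
    (∀ n : ℕ, IsPerf n → n ^ 2 < (3 * n.primeFactors.card) ^ (3 * 4 ^ n.primeFactors.card)) ∧
      ({n : ℕ | IsPerf n}.Infinite ↔ ∀ r : ℕ, ∃ n : ℕ, IsPerf n ∧ r ≤ n.primeFactors.card) := by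
  refine ⟨fun n hn => bound hn, ?_, ?_⟩
  · intro hinf r
    by_contra hcon
    push Not at hcon
    apply hinf
    refine (Set.finite_Iio ((3 * r) ^ (3 * 4 ^ r) + 1)).subset fun n hn => ?_
    have hn' : IsPerf n := hn
    have h1 := bound hn'
    have h2 := hcon n hn'
    have hpos : 1 ≤ n.primeFactors.card := Finset.card_pos.2 (Nat.nonempty_primeFactors.2 hn'.1)
    have h3 : (3 * n.primeFactors.card) ^ (3 * 4 ^ n.primeFactors.card) ≤
        (3 * r) ^ (3 * 4 ^ r) :=
      (Nat.pow_le_pow_left (by omega) _).trans (Nat.pow_le_pow_right (by omega)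
        (Nat.mul_le_mul_left _ (Nat.pow_le_pow_right (by norm_num) h2.le)))
    have h4 : n ≤ n ^ 2 := Nat.le_self_pow (by norm_num) n
    exact Set.mem_Iio.2 (by omega)
  · intro h hfin
    obtain ⟨M, hM⟩ := (hfin.image fun n : ℕ => n.primeFactors.card).bddAbove
    obtain ⟨n, hn, hr⟩ := h (M + 1)
    have h1 : n.primeFactors.card ≤ M := hM ⟨n, hn, rfl⟩
    omega

end Pool.Agent.Results.MP_6c9776_nt.OmegaBound
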