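import Mathlib
import Pool.Agent.Helper73.AltS.Count

/-!
# Alternating-sigma multiply perfect numbers are rare

The number of `n ≤ x` with `n > 1` and `σ̃(n) ∣ n` is at most `x ^ (1 / log log x)` for all large
`x`.

Proof. Since `p^a / σ̃(p^a) > 1`, such an `n` is determined by `k = n / σ̃(n)` and the list of its
exponents: if the part `A` of `n` is known, then the next prime is the least prime factor of the
numerator of `k σ̃(A) / A`. Few primes are less than `(log x)^(19/20)`, and the exponents of the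
others have a small sum.
-/

namespace Pool.Agent.Results.MP_6c9776_nt.Sparse

open Pool.Agent.Helper73.AltS Filter

/-- the analytic inequality, `t = log x` -/
theorem exponent_le {t : ℝ} (ht : 12 ≤ t) (h1 : (Real.log t) ^ 2 ≤ 1 / 80 * t ^ (1 / 20 : ℝ))
    (h2 : 3 ≤ t ^ (19 / 20 : ℝ)) {y : ℕ} (hy1 : t ^ (19 / 20 : ℝ) ≤ y)
    (hy2 : (y : ℝ) < t ^ (19 / 20 : ℝ) + 1) :
    2 * ((y : ℝ) + 2) * Real.log t + Real.log (12 / 5) / Real.log y * t ≤ t / Real.log t := by
  have ht0 : 0 < t := by linarith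
  have hlt : 0 < Real.log t := Real.log_pos (by linarith)
  have hly : 19 / 20 * Real.log t ≤ Real.log y := by
    rw [← Real.log_rpow ht0]
    exact Real.log_le_log (by positivity) hy1
  have hly0 : 0 < Real.log y := lt_of_lt_of_le (by positivity) hly
  have hc : Real.log (12 / 5) ≤ 9 / 10 := by
    have e1 : Real.log (12 / 5) = Real.log 2 + Real.log (6 / 5) := by
      rw [← Real.log_mul (by norm_num) (by norm_num)]
      norm_num
    have e2 : Real.log (6 / 5) ≤ 6 / 5 - 1 := Real.log_le_sub_one_of_pos (by norm_num)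
    have e3 := Real.log_two_lt_d9
    rw [e1]
    linarith
  have hsplit : t = t ^ (19 / 20 : ℝ) * t ^ (1 / 20 : ℝ) := by
    rw [← Real.rpow_add ht0]
    norm_num
  have h3 : 2 * ((y : ℝ) + 2) * Real.log t ≤ 1 / 20 * (t / Real.log t) := by
    rw [mul_div_assoc', le_div_iff₀ hlt]
    have e1 : (y : ℝ) + 2 ≤ 2 * t ^ (19 / 20 : ℝ) := by linarith
    calc 2 * ((y : ℝ) + 2) * Real.log t * Real.log t
        = 2 * ((y : ℝ) + 2) * (Real.log t) ^ 2 := by ring
      _ ≤ 2 * (2 * t ^ (19 / 20 : ℝ)) * (1 / 80 * t ^ (1 / 20 : ℝ)) := by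
          refine mul_le_mul (by linarith) h1 (by positivity) (by positivity)
      _ = 1 / 20 * (t ^ (19 / 20 : ℝ) * t ^ (1 / 20 : ℝ)) := by ring
      _ = 1 / 20 * t := by rw [← hsplit]
  have h4 : Real.log (12 / 5) / Real.log y * t ≤ 18 / 19 * (t / Real.log t) := by
    have e1 : Real.log (12 / 5) / Real.log y ≤ (9 / 10) / (19 / 20 * Real.log t) :=
      div_le_div₀ (by norm_num) hc (by positivity) hly
    calc Real.log (12 / 5) / Real.log y * t ≤ (9 / 10) / (19 / 20 * Real.log t) * t :=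
          mul_le_mul_of_nonneg_right e1 ht0.le
      _ = 18 / 19 * (t / Real.log t) := by
          field_simp
          norm_num
  have h5 : 0 < t / Real.log t := div_pos ht0 hlt
  linarith

theorem result : ∀ᶠ x : ℕ in atTop,
    ({n : ℕ | IsPerf n ∧ n ≤ x}.ncard : ℝ) ≤ (x : ℝ) ^ (1 / Real.log (Real.log x)) := by
  have hlog : Tendsto (fun x : ℕ => Real.log (x : ℝ)) atTop atTop :=
    Real.tendsto_log_atTop.comp tendsto_natCast_atTop_atTop
  have hlittle : ∀ᶠ t : ℝ in atTop, (Real.log t) ^ 2 ≤ 1 / 80 * t ^ (1 / 20 : ℝ) := by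
    have h1 := (isLittleO_log_rpow_rpow_atTop (s := 1 / 20) 2 (by norm_num)).bound
      (by norm_num : (0 : ℝ) < 1 / 80)
    filter_upwards [h1, eventually_ge_atTop (1 : ℝ)] with t ht ht1
    have e1 : 0 ≤ Real.log t := Real.log_nonneg ht1
    rw [Real.norm_of_nonneg (by positivity), Real.norm_of_nonneg (by positivity)] at ht
    have e2 : (Real.log t) ^ (2 : ℝ) = (Real.log t) ^ 2 := Real.rpow_two _
    rwa [e2] at ht
  have hrpow : ∀ᶠ t : ℝ in atTop, 3 ≤ t ^ (19 / 20 : ℝ) :=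
    (tendsto_rpow_atTop (by norm_num : (0 : ℝ) < 19 / 20)).eventually_ge_atTop 3
  filter_upwards [hlog.eventually hlittle, hlog.eventually hrpow,
    hlog.eventually_ge_atTop 12, eventually_ge_atTop 2] with x h1 h2 h3 hx2
  obtain ⟨t, ht⟩ : ∃ t, t = Real.log (x : ℝ) := ⟨_, rfl⟩
  rw [← ht] at h1 h2 h3 ⊢
  obtain ⟨y, hy⟩ : ∃ y, y = ⌈t ^ (19 / 20 : ℝ)⌉₊ := ⟨_, rfl⟩
  have ht0 : 0 < t := by linarith
  have hy1 : t ^ (19 / 20 : ℝ) ≤ y := by rw [hy]; exact Nat.le_ceil _
  have hy2 : (y : ℝ) < t ^ (19 / 20 : ℝ) + 1 := by rw [hy]; exact Nat.ceil_lt_add_one (by positivity)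
  have hy3 : 2 ≤ y := by
    have : (3 : ℝ) ≤ y := h2.trans hy1
    have : 3 ≤ y := by exact_mod_cast this
    omega
  have hmain := count_le hx2 hy3
  obtain ⟨L, hL⟩ : ∃ L, L = Nat.log 2 x := ⟨_, rfl⟩
  rw [← hL] at hmain
  have hx0 : (0 : ℝ) < x := by exact_mod_cast (by omega : 0 < x)
  have hL1 : 1 ≤ L := by
    rw [hL, Nat.le_log_iff_pow_le (by norm_num) (by omega)]
    omega
  have hL1' : (1 : ℝ) ≤ L := by exact_mod_cast hL1
  have hLt : (L : ℝ) ≤ 3 / 2 * t := by
    have e1 : 2 ^ L ≤ x := by rw [hL]; exact Nat.pow_log_le_self 2 (by omega)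
    have e2 : ((2 : ℝ)) ^ L ≤ x := by exact_mod_cast e1
    have e3 : Real.log ((2 : ℝ) ^ L) ≤ t := by
      rw [ht]
      exact Real.log_le_log (by positivity) e2
    rw [Real.log_pow] at e3
    have e4 := Real.log_two_gt_d9
    nlinarith
  have hexp := exponent_le h3 h1 h2 hy1 hy2
  have hcard : ({n : ℕ | IsPerf n ∧ n ≤ x}.ncard : ℝ) ≤
      7 * (L + 2) * (8 * (L : ℝ)) ^ y * (x : ℝ) ^ (Real.log (12 / 5) / Real.log y) := by
    refine le_trans ?_ hmain
    classical
    have e1 : {n : ℕ | IsPerf n ∧ n ≤ x} = (((Finset.Icc 1 x).filter IsPerf : Finset ℕ) : Set ℕ) := by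
      ext n
      rw [Finset.coe_filter]
      constructor
      · rintro ⟨hn, hnx⟩
        exact ⟨Finset.mem_Icc.2 ⟨by have := hn.1; omega, hnx⟩, hn⟩
      · rintro ⟨hn, hn2⟩
        exact ⟨hn2, (Finset.mem_Icc.1 hn).2⟩
    rw [e1, Set.ncard_coe_finset]
  have hlt : 0 < Real.log t := Real.log_pos (by linarith)
  have hT : (1 : ℝ) ≤ 12 * t := by linarith
  have hbound : 7 * ((L : ℝ) + 2) * (8 * (L : ℝ)) ^ y ≤ (12 * t) ^ (y + 2) := by
    have e1 : (8 * (L : ℝ)) ^ y ≤ (12 * t) ^ y := pow_le_pow_left₀ (by positivity) (by linarith) y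
    have e2 : 7 * ((L : ℝ) + 2) ≤ (12 * t) ^ 2 := by nlinarith
    rw [pow_add, mul_comm ((12 * t) ^ y)]
    exact mul_le_mul e2 e1 (by positivity) (by positivity)
  have hpow : (12 * t) ^ (y + 2) ≤ Real.exp (2 * ((y : ℝ) + 2) * Real.log t) := by
    have e1 : 12 * t ≤ t ^ 2 := by nlinarith
    calc (12 * t) ^ (y + 2) ≤ (t ^ 2) ^ (y + 2) := pow_le_pow_left₀ (by positivity) e1 _
      _ = Real.exp (2 * ((y : ℝ) + 2) * Real.log t) := by
          rw [← pow_mul, ← Real.rpow_natCast, Real.rpow_def_of_pos ht0]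
          congr 1
          push_cast
          ring
  have hxs : (x : ℝ) ^ (Real.log (12 / 5) / Real.log y) =
      Real.exp (Real.log (12 / 5) / Real.log y * t) := by
    rw [Real.rpow_def_of_pos hx0, ← ht, mul_comm]
  have hxf : (x : ℝ) ^ (1 / Real.log t) = Real.exp (t / Real.log t) := by
    rw [Real.rpow_def_of_pos hx0, ← ht, mul_one_div]
  rw [hxf]
  refine hcard.trans ?_
  rw [hxs]
  calc 7 * ((L : ℝ) + 2) * (8 * (L : ℝ)) ^ y * Real.exp (Real.log (12 / 5) / Real.log y * t)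
      ≤ Real.exp (2 * ((y : ℝ) + 2) * Real.log t) *
          Real.exp (Real.log (12 / 5) / Real.log y * t) :=
        mul_le_mul_of_nonneg_right (hbound.trans hpow) (Real.exp_pos _).le
    _ = Real.exp (2 * ((y : ℝ) + 2) * Real.log t + Real.log (12 / 5) / Real.log y * t) := by
        rw [Real.exp_add]
    _ ≤ Real.exp (t / Real.log t) := Real.exp_le_exp.2 hexp

end Pool.Agent.Results.MP_6c9776_nt.Sparse
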